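import Mathlib
import Pool.Agent.Lib.helper9.BorsukUlam

open Filter Topology Metric
open scoped BoundedContinuousFunction ComplexOrder

namespace Pool.Agent.Results.MP_cd8fef_an.No

def c0 (A : Type) [NormedCommRing A] : Ideal (ℕ →ᵇ A) where
  carrier := {u | Tendsto u atTop (𝓝 0)}
  zero_mem' := tendsto_const_nhds
  add_mem' := fun ha hb => by simpa [Pi.add_def] using Tendsto.add ha hb
  smul_mem' := fun c _ h => by
    refine squeeze_zero_norm (fun k => (norm_mul_le _ _).trans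
      (mul_le_mul_of_nonneg_right (c.norm_coe_le_norm k) (norm_nonneg _))) ?_
    simpa using (Tendsto.norm h).const_mul ‖c‖

def TowersIn {G B Q : Type} [Group G] [TopologicalSpace G] [CommRing Q] [Algebra ℂ Q]
    (π : B → Q) (β : G → B → B → Prop) (d : ℕ) : Prop :=
  ∃ φ : Fin (d + 1) → C(G, ℂ) →ₗ[ℂ] Q,
    (∀ j g f f', (∀ h, f' h = f (g⁻¹ * h)) → ∀ u u', β g u u' → φ j f = π u → φ j f' = π u') ∧
    (∀ j f f', (∀ h, 0 ≤ f h) → (∀ h, 0 ≤ f' h) → f * f' = 0 → φ j f * φ j f' = 0) ∧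
    ∑ j, φ j 1 = 1

def Towers {G A : Type} [Group G] [TopologicalSpace G] [NormedCommRing A] [NormedAlgebra ℂ A]
    (α : G → A → A) (d : ℕ) : Prop :=
  TowersIn (fun u : ℕ →ᵇ A => Ideal.Quotient.mk (c0 A) u) (fun g u u' => ∀ k, u' k = α g (u k)) d

noncomputable def act (G X : Type) [Group G] [TopologicalSpace X] [MulAction G X] [ContinuousConstSMul G X]
    (g : G) (f : C(X, ℂ)) : C(X, ℂ) :=
  f.comp ⟨fun x => g⁻¹ • x, continuous_const_smul _⟩

lemma bu {n d : ℕ} (h : 2 * d < n) (F : sphere (0 : EuclideanSpace ℝ (Fin n)) 1 → Fin d → ℂ)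
    (hc : Continuous F) (ho : ∀ x, F (-x) = -F x) : ∃ x, F x = 0 := by
  classical
  obtain ⟨x, hx, h0⟩ := Pool.Agent.Lib.helper9.BorsukUlam.borsuk_ulam
    (E := EuclideanSpace ℝ (Fin n)) (F := Fin d → ℂ) (Or.inr (by
      simp [Module.finrank_pi_fintype]; omega))
    (fun x => if hx : ‖x‖ = 1 then F ⟨x, mem_sphere_zero_iff_norm.2 hx⟩ else 0) (by
      rw [continuousOn_iff_continuous_domRestrict]
      refine (hc.comp (f := fun x : {x : EuclideanSpace ℝ (Fin n) | ‖x‖ = 1} =>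
        ⟨x, mem_sphere_zero_iff_norm.2 x.2⟩) (continuous_subtype_val.subtype_mk _)).congr
          fun x => ?_
      have hx : ‖(x : EuclideanSpace ℝ (Fin n))‖ = 1 := x.2
      simp only [Set.domRestrict_apply, dif_pos hx, Function.comp_apply]) (fun x hx => by
      rw [dif_pos hx, dif_pos (by simpa using hx), ← ho]
      rfl)
  exact ⟨_, by rwa [dif_pos hx] at h0⟩

lemma core {G X : Type} [Group G] [TopologicalSpace G] [TopologicalSpace X] [CompactSpace X]
    [MulAction G X] [ContinuousConstSMul G X] {d : ℕ} (T : Towers (act G X) d) (s : G)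
    (p q : C(G, ℂ)) (pq : ∀ h, q h = p (s⁻¹ * h)) (p0 : ∀ h, 0 ≤ p h) (q0 : ∀ h, 0 ≤ q h)
    (m : p * q = 0) (e : 1 = p + q) :
    ∃ U : Fin (d + 1) → C(X, ℂ), ∀ y, ¬ ∀ j, U j y = U j (s⁻¹ • y) := by
  obtain ⟨φ, h1, h2, h3⟩ := T
  choose u hu using fun j => Ideal.Quotient.mk_surjective (φ j p)
  let v : Fin (d + 1) → ℕ →ᵇ C(X, ℂ) := fun j =>
    BoundedContinuousFunction.ofNormedAddCommGroupDiscrete (fun k => act G X s (u j k)) ‖u j‖
      fun k => (ContinuousMap.norm_le _ (norm_nonneg _)).2 fun x =>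
        ((u j k).norm_coe_le_norm _).trans ((u j).norm_coe_le_norm k)
  have hv : ∀ j, φ j q = Ideal.Quotient.mk _ (v j) := fun j =>
    h1 j s p q pq (u j) (v j) (fun _ => rfl) (hu j).symm
  have a1 : ∀ j, Tendsto (u j * v j) atTop (𝓝 0) := fun j => by
    have := h2 j p q p0 q0 m
    rwa [← hu, hv, ← map_mul, Ideal.Quotient.eq_zero_iff_mem] at this
  have a2 : Tendsto (∑ j, (u j + v j) - 1 : ℕ →ᵇ C(X, ℂ)) atTop (𝓝 0) := by
    simp only [e, map_add, ← hu, hv] at h3
    refine (Ideal.Quotient.eq (I := c0 _)).1 ?_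
    simpa [map_sum] using h3
  set ε : ℝ := 1 / (4 * (d + 1)) with hε
  have ε0 : 0 < ε := by positivity
  obtain ⟨k, k1, k2⟩ := ((eventually_all.2 fun j => (a1 j).norm.eventually
    (gt_mem_nhds (show ‖(0 : C(X, ℂ))‖ < ε ^ 2 by simp; positivity))).and (a2.norm.eventually
    (gt_mem_nhds (show ‖(0 : C(X, ℂ))‖ < 1 / 2 by simp)))).exists
  refine ⟨fun j => u j k, fun y hy => ?_⟩
  have b1 : ∀ j, v j k y = u j k y := fun j => (hy j).symm
  have b2 : ∀ j, ‖u j k y‖ ≤ ε := fun j => by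
    have := (((u j * v j) k).norm_coe_le_norm y).trans (k1 j).le
    rw [show (u j * v j) k y = u j k y * v j k y from rfl, b1, norm_mul, ← sq] at this
    exact le_of_sq_le_sq this ε0.le |> fun h => h
  have b3 := ((((∑ j, (u j + v j) - 1 : ℕ →ᵇ C(X, ℂ)) k).norm_coe_le_norm y).trans_lt k2)
  have b4 : ((∑ j, (u j + v j) - 1 : ℕ →ᵇ C(X, ℂ)) k) y = ∑ j, 2 * u j k y - 1 := by
    simp [b1, two_mul]
  have b5 : ‖∑ j, 2 * u j k y‖ ≤ 1 / 2 := by
    refine (norm_sum_le_of_le (n := fun _ => 2 * ε) _ fun j _ => ?_).trans (le_of_eq ?_)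
    · simpa using b2 j
    · simp [hε]
      field_simp
      ring
  have b6 := norm_sub_norm_le (1 : ℂ) (∑ j, 2 * u j k y)
  rw [b4, norm_sub_rev] at b3
  rw [norm_one] at b6
  linarith

abbrev S (n : ℕ) := sphere (0 : EuclideanSpace ℝ (Fin (n + 1))) 1

theorem result : ∃ (G X : Type) (_ : Group G) (_ : TopologicalSpace G) (_ : IsTopologicalGroup G)
    (_ : CompactSpace G) (_ : T2Space G) (_ : TopologicalSpace X) (_ : CompactSpace X)
    (_ : T2Space X) (_ : MulAction G X) (_ : ContinuousSMul G X),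
    (∀ (g : G) (x : X), g • x = x → g = 1) ∧ ∀ d, ¬ Towers (act G X) d := by
  classical
  have cs : ContinuousSMul (ℕ → sphere (0 : ℝ) 1) (∀ n : ℕ, S n) := ⟨continuous_pi fun n =>
    ((continuous_apply n).comp continuous_fst).smul ((continuous_apply n).comp continuous_snd)⟩
  refine ⟨ℕ → sphere (0 : ℝ) 1, ∀ n : ℕ, S n,
    inferInstance, inferInstance, inferInstance, inferInstance, inferInstance, inferInstance,
    inferInstance, inferInstance, Pi.mulAction', cs, fun g x h => ?_, fun d T => ?_⟩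
  · ext n
    have a : (g n : ℝ) • (x n : EuclideanSpace ℝ (Fin (n + 1))) = x n :=
      congrArg Subtype.val (congrFun h n)
    have b : ((g n : ℝ) - 1) • (x n : EuclideanSpace ℝ (Fin (n + 1))) = 0 := by
      rw [sub_smul, a, one_smul, sub_self]
    exact sub_eq_zero.1 ((smul_eq_zero.1 b).resolve_right (ne_zero_of_mem_unit_sphere _))
  set n := 2 * (d + 1)
  let s : ℕ → sphere (0 : ℝ) 1 := Function.update 1 n (-1)
  let p : ℝ → C(ℕ → sphere (0 : ℝ) 1, ℂ) := fun e =>
    ⟨fun h => (((1 + e * h n) / 2 : ℝ) : ℂ), by fun_prop⟩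
  have ab : ∀ h : ℕ → sphere (0 : ℝ) 1, |(h n : ℝ)| = 1 := fun h => norm_eq_of_mem_sphere (h n)
  obtain ⟨U, hU⟩ := core (G := ℕ → sphere (0 : ℝ) 1) (X := ∀ n : ℕ, S n) (d := d) T s
    (p 1) (p (-1)) (fun h => by simp [p, s])
    (fun h => Complex.zero_le_real.2 (by linarith [neg_abs_le (h n : ℝ), ab h]))
    (fun h => Complex.zero_le_real.2 (by linarith [le_abs_self (h n : ℝ), ab h]))
    (by
      ext h
      have : (h n : ℝ) ^ 2 = 1 := by rw [← sq_abs, ab h, one_pow]
      simp only [p, ContinuousMap.mul_apply, ContinuousMap.coe_mk, ← Complex.ofReal_mul,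
        ContinuousMap.zero_apply, Complex.ofReal_eq_zero]
      linarith)
    (by
      ext h
      simp only [p, ContinuousMap.add_apply, ContinuousMap.coe_mk, ← Complex.ofReal_add,
        ContinuousMap.one_apply]
      rw [← Complex.ofReal_one]
      congr 1
      ring)
  let x0 : ∀ n : ℕ, S n := fun m => ⟨EuclideanSpace.single 0 1, by simp⟩
  have sx : ∀ x, s⁻¹ • Function.update x0 n x = Function.update x0 n (-x) := fun x => by
    funext m
    rw [Pi.smul_apply']
    by_cases hm : m = n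
    · subst hm
      ext1
      simp only [Function.update_self]
      show ((s⁻¹ n : sphere (0 : ℝ) 1) : ℝ) • (x : EuclideanSpace ℝ (Fin (n + 1))) = _
      simp [s]
    · simp [s, hm]
  obtain ⟨x, hx⟩ := bu (n := n + 1) (d := d + 1) (by omega)
    (fun x j => U j (Function.update x0 n x) - U j (Function.update x0 n (-x)))
    (by fun_prop) (fun x => by ext j; simp)
  refine hU (Function.update x0 n x) fun j => ?_
  have := congrFun hx j
  rw [← sx] at this
  exact sub_eq_zero.1 this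

end Pool.Agent.Results.MP_cd8fef_an.No
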